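import Pool.Agent.J4H27.GE.Defs

/-!
# Project GE, part CNT: the number of the conditions
-/

set_option autoImplicit false

open Pool.Agent.J4H27.GE

namespace Pool.Agent.J4H56.GE

theorem exp_neg_le {t : ℝ} (h0 : 0 ≤ t) (h1 : t ≤ 1) : Real.exp (-t) ≤ 1 - t / 2 := by
  have h2 : 1 + t ≤ Real.exp t := by linarith [Real.add_one_le_exp t]
  have h3 : 1 ≤ (1 - t / 2) * Real.exp t := by nlinarith
  rw [Real.exp_neg]
  rw [inv_le_iff_one_le_mul₀ (Real.exp_pos t)]
  exact h3

theorem pow17 (m : ℕ) (hm : 2 ≤ m) : 8 * ((m : ℝ) + 1) ^ 2 ≤ 17 ^ m := by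
  induction m, hm using Nat.le_induction with
  | base => norm_num
  | succ n hn ih =>
    have : (2 : ℝ) ≤ n := by exact_mod_cast hn
    push_cast
    have e : (17 : ℝ) ^ (n + 1) = 17 * 17 ^ n := by ring
    rw [e]
    nlinarith

theorem t_CNT : S_CNT := by
  classical
  intro m N d' D k hm hN hd hD hDN
  have hd0 : (0 : ℝ) < d' := by exact_mod_cast hd
  have hN0 : (0 : ℝ) < N := by exact_mod_cast hN
  set M := m * d' + 1 with hM
  let t : Fin m → ℝ := fun i => 4 ^ k i / d'
  have ht0 : ∀ i, 0 < t i := fun i => by positivity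
  have hDi : ∀ i, (D i : ℝ) * 4 ^ k i = 384 * N * d' := fun i => by exact_mod_cast hD i
  have ht1 : ∀ i, t i ≤ 1 := by
    intro i
    rw [div_le_one hd0]
    have h1 : (384 * N : ℝ) ≤ D i := by exact_mod_cast hDN i
    have h2 := hDi i
    by_contra hc
    push Not at hc
    have : (384 * N : ℝ) * d' < D i * 4 ^ k i :=
      mul_lt_mul' h1 hc hd0.le (by nlinarith)
    linarith
  let B : Finset (Fin m → ℕ × ℕ) :=
    Fintype.piFinset fun _ => Finset.range M ×ˢ Finset.range N
  refine ⟨B.filter fun z => ∑ i, 4 ^ k i * (z i).1 < m * d', fun z hz hz2 => ?_, ?_⟩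
  · rw [Finset.mem_filter]
    refine ⟨?_, hz⟩
    simp only [B, Fintype.mem_piFinset, Finset.mem_product, Finset.mem_range]
    intro i
    refine ⟨?_, hz2 i⟩
    have h1 : 4 ^ k i * (z i).1 ≤ ∑ i, 4 ^ k i * (z i).1 :=
      Finset.single_le_sum (f := fun i => 4 ^ k i * (z i).1) (fun _ _ => Nat.zero_le _)
        (Finset.mem_univ i)
    have h2 : (z i).1 ≤ 4 ^ k i * (z i).1 := Nat.le_mul_of_pos_left _ (by positivity)
    omega
  · -- the weights
    have hw : ((B.filter fun z => ∑ i, 4 ^ k i * (z i).1 < m * d').card : ℝ) ≤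
        ∏ i, (Real.exp 1 * D i / 192) := by
      calc ((B.filter fun z => ∑ i, 4 ^ k i * (z i).1 < m * d').card : ℝ)
          = ∑ z ∈ B.filter fun z => ∑ i, 4 ^ k i * (z i).1 < m * d', (1 : ℝ) := by simp
        _ ≤ ∑ z ∈ B.filter fun z => ∑ i, 4 ^ k i * (z i).1 < m * d',
            ∏ i, (Real.exp 1 * (1 - t i / 2) ^ (z i).1) := by
            refine Finset.sum_le_sum fun z hz => ?_
            have hz' := (Finset.mem_filter.1 hz).2
            have h1 : ∀ i, Real.exp (1 - t i * (z i).1) ≤
                Real.exp 1 * (1 - t i / 2) ^ (z i).1 := by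
              intro i
              have : Real.exp (1 - t i * (z i).1) = Real.exp 1 * Real.exp (-t i) ^ (z i).1 := by
                rw [← Real.exp_nat_mul, ← Real.exp_add]; congr 1; ring
              rw [this]
              refine mul_le_mul_of_nonneg_left ?_ (Real.exp_pos 1).le
              exact pow_le_pow_left₀ (Real.exp_pos _).le (exp_neg_le (ht0 i).le (ht1 i)) _
            refine le_trans ?_ (Finset.prod_le_prod (fun i _ => (Real.exp_pos _).le)
              fun i _ => h1 i)
            rw [← Real.exp_sum, Real.one_le_exp_iff]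
            have h2 : ∑ i, (t i * (z i).1) = (∑ i, (4 : ℝ) ^ k i * (z i).1) / d' := by
              rw [Finset.sum_div]
              exact Finset.sum_congr rfl fun i _ => by simp only [t]; ring
            have h3 : ∑ i, (4 : ℝ) ^ k i * (z i).1 < m * d' := by exact_mod_cast hz'
            rw [Finset.sum_sub_distrib, h2]
            simp only [Finset.sum_const, Finset.card_univ, Fintype.card_fin, nsmul_eq_mul, mul_one]
            have : (∑ i, (4 : ℝ) ^ k i * (z i).1) / d' ≤ m := by
              rw [div_le_iff₀ hd0]; exact h3.le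
            linarith
        _ ≤ ∑ z ∈ B, ∏ i, (Real.exp 1 * (1 - t i / 2) ^ (z i).1) := by
            refine Finset.sum_le_sum_of_subset_of_nonneg (Finset.filter_subset _ _)
              fun z _ _ => Finset.prod_nonneg fun i _ => ?_
            have : 0 ≤ 1 - t i / 2 := by linarith [ht1 i]
            positivity
        _ = ∏ i, ∑ p ∈ Finset.range M ×ˢ Finset.range N,
              (Real.exp 1 * (1 - t i / 2) ^ p.1) := by
            simp only [B]
            rw [Finset.prod_univ_sum]
        _ ≤ ∏ i, (Real.exp 1 * D i / 192) := by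
            refine Finset.prod_le_prod (fun i _ => Finset.sum_nonneg fun p _ => ?_) fun i _ => ?_
            · have : 0 ≤ 1 - t i / 2 := by linarith [ht1 i]
              positivity
            · rw [Finset.sum_product]
              simp only [Finset.sum_const, Finset.card_range, nsmul_eq_mul]
              rw [← Finset.mul_sum, ← Finset.mul_sum]
              have hρ0 : 0 ≤ 1 - t i / 2 := by linarith [ht1 i]
              have hρ1 : 1 - t i / 2 < 1 := by linarith [ht0 i]
              have hg : ∑ l ∈ Finset.range M, (1 - t i / 2) ^ l ≤ 2 / t i := by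
                have := Summable.sum_le_tsum (Finset.range M) (fun l _ => pow_nonneg hρ0 l)
                  (summable_geometric_of_lt_one hρ0 hρ1)
                rw [tsum_geometric_of_lt_one hρ0 hρ1] at this
                refine this.trans (le_of_eq ?_)
                have h5 : 1 - (1 - t i / 2) = t i / 2 := by ring
                rw [h5, inv_div]
              have hval : (N : ℝ) * (Real.exp 1 * (2 / t i)) = Real.exp 1 * D i / 192 := by
                have h4 : (4 : ℝ) ^ k i ≠ 0 := by positivity
                have : (D i : ℝ) = 384 * N * d' / 4 ^ k i := by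
                  rw [eq_div_iff h4]; exact hDi i
                rw [this]
                simp only [t]
                field_simp
                ring
              rw [← hval]
              exact mul_le_mul_of_nonneg_left
                (mul_le_mul_of_nonneg_left hg (Real.exp_pos 1).le) hN0.le
    have hcast : ((4 ^ m * (8 * (m + 1) ^ 2) *
        (B.filter fun z => ∑ i, 4 ^ k i * (z i).1 < m * d').card : ℕ) : ℝ) ≤
        ((∏ i, (D i + 1) : ℕ) : ℝ) := by
      push_cast
      have he : Real.exp 1 < 48 / 17 := lt_trans Real.exp_one_lt_d9 (by norm_num)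
      have hp : ∏ i, (Real.exp 1 * D i / 192) ≤ ∏ i : Fin m, ((D i : ℝ) / (4 * 17)) := by
        refine Finset.prod_le_prod (fun i _ => by positivity) fun i _ => ?_
        have : (0 : ℝ) ≤ D i := by positivity
        rw [div_le_div_iff₀ (by norm_num) (by norm_num)]
        nlinarith
      have hq : ∏ i : Fin m, ((D i : ℝ) / (4 * 17)) = (∏ i, (D i : ℝ)) / (4 ^ m * 17 ^ m) := by
        rw [Finset.prod_div_distrib]
        simp [mul_pow]
      have h17 := pow17 m hm
      have hprod : ∏ i, (D i : ℝ) ≤ ∏ i, ((D i : ℝ) + 1) :=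
        Finset.prod_le_prod (fun i _ => by positivity) fun i _ => by linarith
      have hnn : 0 ≤ ∏ i, (D i : ℝ) := Finset.prod_nonneg fun i _ => by positivity
      calc (4 : ℝ) ^ m * (8 * (m + 1) ^ 2) *
            ((B.filter fun z => ∑ i, 4 ^ k i * (z i).1 < m * d').card : ℝ)
          ≤ 4 ^ m * 17 ^ m * ((∏ i, (D i : ℝ)) / (4 ^ m * 17 ^ m)) := by
            refine mul_le_mul (mul_le_mul_of_nonneg_left h17 (by positivity))
              (hw.trans (hp.trans hq.le)) (by positivity) (by positivity)
        _ = ∏ i, (D i : ℝ) := by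
            have : (4 : ℝ) ^ m * 17 ^ m ≠ 0 := by positivity
            field_simp
        _ ≤ _ := hprod
    exact_mod_cast hcast

end Pool.Agent.J4H56.GE
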