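import Pool.Agent.J4H27.GE.Defs

/-!
# Project GE, part LGV: the vector of the logarithms of an `S`-unit
-/

set_option autoImplicit false

open NumberField Height Pool.Agent.J4H27.GE

namespace Pool.Agent.J4H56.GE

theorem norm_le_sum_abs {q : ℕ} (x : EuclideanSpace ℝ (Fin q)) : ‖x‖ ≤ ∑ i, |x i| := by
  rw [EuclideanSpace.norm_eq]
  refine Real.sqrt_le_iff.2 ⟨Finset.sum_nonneg fun i _ => abs_nonneg _, ?_⟩
  simp only [Real.norm_eq_abs]
  exact Finset.sum_sq_le_sq_sum_of_nonneg fun i _ => abs_nonneg _

theorem abs_le_norm {q : ℕ} (x : EuclideanSpace ℝ (Fin q)) (i : Fin q) : |x i| ≤ ‖x‖ := by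
  have := PiLp.norm_apply_le x i
  simpa using this

section
variable {K : Type} [Field K] [NumberField K] (SS : Finset (FinitePlace K))

/-- the logarithms -/
noncomputable def lg (u : K) : InfinitePlace K ⊕ SS → ℝ
  | Sum.inl w => w.mult * Real.log (w u)
  | Sum.inr v => Real.log (v.1 u)

theorem height_eq {u : K} (h : ∀ v ∉ SS, v u = 1) :
    logHeight₁ u = ∑ t, max 0 (lg SS u t) := by
  rw [NumberField.logHeight₁_eq, Fintype.sum_sum_type]
  congr 1
  · refine Finset.sum_congr rfl fun w _ => ?_
    simp only [lg, Real.posLog]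
    rw [mul_max_of_nonneg _ _ (Nat.cast_nonneg _), mul_zero]
  · rw [finsum_eq_sum_of_support_subset (s := SS)]
    · rw [← Finset.sum_coe_sort]
      rfl
    · intro v hv
      by_contra hno
      apply hv
      simp only [Finset.mem_coe] at hno
      simp only
      rw [h v hno]
      simp [Real.posLog]

theorem lg_inv (u : K) (t : InfinitePlace K ⊕ SS) : lg SS u⁻¹ t = - lg SS u t := by
  rcases t with w | v
  · simp [lg, Real.log_inv]
  · simp [lg, Real.log_inv]

theorem lg_mul {u w : K} (hu : u ≠ 0) (hw : w ≠ 0) (t : InfinitePlace K ⊕ SS) :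
    lg SS (u * w) t = lg SS u t + lg SS w t := by
  rcases t with x | v
  · simp only [lg, map_mul]
    rw [Real.log_mul ((map_ne_zero x).2 hu) ((map_ne_zero x).2 hw)]; ring
  · simp only [lg, map_mul]
    rw [Real.log_mul ((map_ne_zero v.1).2 hu) ((map_ne_zero v.1).2 hw)]

end

theorem t_LGV : S_LGV := by
  classical
  intro K _ _ SS
  set q := Fintype.card (InfinitePlace K ⊕ SS) with hq
  let e : Fin q ≃ InfinitePlace K ⊕ SS := (Fintype.equivFin _).symm
  refine ⟨q, fun u => WithLp.toLp 2 fun i => lg SS u (e i), q + 2,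
    by linarith [Nat.cast_nonneg (α := ℝ) q], fun u w hu hw => ?_, fun u hu h => ?_⟩
  · ext i
    exact lg_mul SS hu hw (e i)
  · have hs : ∀ f : InfinitePlace K ⊕ SS → ℝ, ∑ i, f (e i) = ∑ t, f t := fun f =>
      Equiv.sum_comp e f
    have h0 := zero_le_logHeight₁ u
    have h1 := height_eq SS h
    have h2 : logHeight₁ u = ∑ t, max 0 (- lg SS u t) := by
      rw [← logHeight₁_inv, height_eq SS fun v hv => by rw [map_inv₀, h v hv, inv_one]]
      exact Finset.sum_congr rfl fun t _ => by rw [lg_inv]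
    have habs : ∑ t, |lg SS u t| = 2 * logHeight₁ u := by
      rw [two_mul]
      conv_rhs => rw [h1]
      nth_rewrite 2 [h1.symm]
      rw [h2, ← Finset.sum_add_distrib]
      refine Finset.sum_congr rfl fun t _ => ?_
      rcases le_total 0 (lg SS u t) with h3 | h3
      · rw [abs_of_nonneg h3, max_eq_right h3, max_eq_left (by linarith)]; ring
      · rw [abs_of_nonpos h3, max_eq_left h3, max_eq_right (by linarith)]; ring
    constructor
    · refine (norm_le_sum_abs _).trans ?_
      have : ∑ i, |(WithLp.toLp 2 fun i => lg SS u (e i) : EuclideanSpace ℝ (Fin q)) i|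
          = ∑ t, |lg SS u t| := hs fun t => |lg SS u t|
      rw [this, habs]
      nlinarith [Nat.cast_nonneg (α := ℝ) q]
    · have h4 : ∑ t, |lg SS u t| ≤
          q * ‖(WithLp.toLp 2 fun i => lg SS u (e i) : EuclideanSpace ℝ (Fin q))‖ := by
        rw [← hs]
        calc ∑ i, |lg SS u (e i)| ≤ ∑ _i : Fin q,
              ‖(WithLp.toLp 2 fun i => lg SS u (e i) : EuclideanSpace ℝ (Fin q))‖ :=
              Finset.sum_le_sum fun i _ =>
                abs_le_norm (WithLp.toLp 2 fun i => lg SS u (e i)) i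
          _ = _ := by simp
      have h5 := norm_nonneg (WithLp.toLp 2 fun i => lg SS u (e i) : EuclideanSpace ℝ (Fin q))
      nlinarith

end Pool.Agent.J4H56.GE
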