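import Pool.Agent.J4H27.GE.Defs

/-!
# Project GE, part QAD: expansions of the powers of `X` in the powers of `Q`
-/

set_option autoImplicit false

open NumberField Pool.Agent.J4H27.GE

namespace Pool.Agent.J4H56.GE

section
variable {K : Type} [Field K] [NumberField K]

theorem house_zero' : house (((0 : 𝓞 K) : K)) = 0 := by
  have := house_intCast (K := K) 0
  simpa using this

theorem house_one' : house (((1 : 𝓞 K) : K)) = 1 := by
  have := house_intCast (K := K) 1
  simpa using this

theorem house_neg' (x : K) : house (-x) = house x := by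
  simp [house]

theorem exists_exp (Q : Polynomial (𝓞 K)) (hQ : 1 ≤ Q.natDegree) (L : ℝ) (hL : 1 ≤ L)
    (hb : ∀ i, house (Q.coeff i : K) ≤ L) (cm : ℕ) (c : ℕ) (hc : c ≤ cm) :
    ∃ p : ℕ → Polynomial (𝓞 K), (∀ l, c < l → p l = 0) ∧
      (∀ l b, Q.natDegree ≤ b → (p l).coeff b = 0) ∧
      (∀ l b, house ((p l).coeff b : K) ≤ (3 * L) ^ c) ∧
      Polynomial.C (Q.leadingCoeff ^ c) * Polynomial.X ^ c =
        ∑ l ∈ Finset.range (cm + 1), p l * Q ^ l := by
  induction c with
  | zero =>
    refine ⟨fun l => if l = 0 then 1 else 0, fun l hl => by simp [hl.ne'], fun l b hb' => ?_,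
      fun l b => ?_, ?_⟩
    · dsimp only
      split_ifs
      · rw [Polynomial.coeff_one, if_neg (by omega)]
      · simp
    · dsimp only
      split_ifs
      · rw [Polynomial.coeff_one]
        split_ifs
        · rw [house_one', pow_zero]
        · rw [house_zero']; positivity
      · rw [Polynomial.coeff_zero, house_zero']; positivity
    · simp
  | succ c ih =>
    obtain ⟨p, h1, h2, h3, h4⟩ := ih (by omega)
    set e := Q.natDegree - 1 with he
    have he' : e + 1 = Q.natDegree := by omega
    set q := Q.leadingCoeff with hq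
    have hqL : house (q : K) ≤ L := hb _
    let P : ℕ → Polynomial (𝓞 K) := fun l =>
      Polynomial.C q * Polynomial.X * p l - Polynomial.C ((p l).coeff e) * Q +
        (if l = 0 then 0 else Polynomial.C ((p (l - 1)).coeff e))
    have hP : ∀ l b, (P l).coeff b = (if b = 0 then 0 else q * (p l).coeff (b - 1)) -
        (p l).coeff e * Q.coeff b + (if l = 0 then 0 else if b = 0 then (p (l - 1)).coeff e
          else 0) := by
      intro l b
      simp only [P, Polynomial.coeff_add, Polynomial.coeff_sub, Polynomial.coeff_C_mul, mul_assoc]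
      congr 1
      · congr 1
        rcases b with _ | b
        · simp
        · simp
      · by_cases hl : l = 0
        · simp [hl]
        · by_cases hb0 : b = 0
          · simp [hl, hb0]
          · simp [hl, hb0, Polynomial.coeff_C]
    refine ⟨P, fun l hl => ?_, fun l b hlb => ?_, fun l b => ?_, ?_⟩
    · simp only [P]
      rw [h1 l (by omega), if_neg (by omega), h1 (l - 1) (by omega)]
      simp
    · rw [hP, if_neg (show ¬ b = 0 by omega)]
      have : (if l = 0 then (0 : 𝓞 K) else if b = 0 then (p (l - 1)).coeff e else 0) = 0 := by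
        split_ifs with _ h0
        · rfl
        · omega
        · rfl
      rw [this, add_zero]
      rcases hlb.lt_or_eq with h | h
      · rw [h2 l (b - 1) (by omega), Polynomial.coeff_eq_zero_of_natDegree_lt h]; simp
      · rw [← h, ← he', Nat.add_sub_cancel, he', ← Polynomial.leadingCoeff, ← hq]; ring
    · rw [hP]
      push_cast
      have B0 : (0 : ℝ) ≤ (3 * L) ^ c := by positivity
      have a1 : house ((((if b = 0 then (0 : 𝓞 K) else q * (p l).coeff (b - 1)) : 𝓞 K)) : K)
          ≤ L * (3 * L) ^ c := by
        split_ifs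
        · rw [house_zero']; positivity
        · push_cast
          exact (house_mul_le _ _).trans (mul_le_mul hqL (h3 _ _) (house_nonneg _) (by linarith))
      have a2 : house (((p l).coeff e * Q.coeff b : 𝓞 K) : K) ≤ L * (3 * L) ^ c := by
        push_cast
        rw [mul_comm L]
        exact (house_mul_le _ _).trans (mul_le_mul (h3 _ _) (hb _) (house_nonneg _) B0)
      have a3 : house ((((if l = 0 then (0 : 𝓞 K) else if b = 0 then (p (l - 1)).coeff e else 0)
          : 𝓞 K)) : K) ≤ L * (3 * L) ^ c := by
        split_ifs
        · rw [house_zero']; positivity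
        · exact (h3 _ _).trans (by nlinarith)
        · rw [house_zero']; positivity
      have : (3 * L) ^ (c + 1) = L * (3 * L) ^ c + L * (3 * L) ^ c + L * (3 * L) ^ c := by ring
      rw [this, sub_eq_add_neg]
      refine (house_add_le _ _).trans (add_le_add ((house_add_le _ _).trans (add_le_add ?_ ?_)) ?_)
      · exact a1
      · rw [house_neg']
        have a2' := a2
        push_cast at a2'
        exact a2'
      · exact a3
    · have key : ∑ l ∈ Finset.range (cm + 1), P l * Q ^ l
          = Polynomial.C q * Polynomial.X * ∑ l ∈ Finset.range (cm + 1), p l * Q ^ l := by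
        have e1 : ∑ l ∈ Finset.range (cm + 1),
            (if l = 0 then (0 : Polynomial (𝓞 K)) else Polynomial.C ((p (l - 1)).coeff e)) * Q ^ l
            = ∑ l ∈ Finset.range (cm + 1), Polynomial.C ((p l).coeff e) * Q * Q ^ l := by
          rw [Finset.sum_range_succ', Finset.sum_range_succ (fun l => Polynomial.C ((p l).coeff e)
            * Q * Q ^ l), h1 cm (by omega)]
          simp only [if_true, zero_mul, add_zero, Polynomial.coeff_zero, map_zero]
          refine Finset.sum_congr rfl fun l _ => ?_
          rw [if_neg (by omega), Nat.add_sub_cancel, pow_succ]; ring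
        simp only [P, add_mul, sub_mul, Finset.sum_add_distrib, Finset.sum_sub_distrib]
        rw [e1, sub_add_cancel, Finset.mul_sum]
        exact Finset.sum_congr rfl fun l _ => by ring
      rw [key, ← h4, pow_succ, pow_succ, map_mul]
      ring

end

theorem t_QAD : S_QAD := by
  intro K _ _ N
  refine ⟨3, by norm_num, fun Q h1 hN L hL hb cm => ?_⟩
  choose! p hp1 hp2 hp3 hp4 using fun c (hc : c ≤ cm) => exists_exp Q h1 L hL hb cm c hc
  refine ⟨fun c l b => Q.leadingCoeff ^ (cm - c) * (p c l).coeff b, h1, hN, hL, hb,
    fun c hc => ?_, fun c l b hc => ?_⟩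
  · have e1 : Polynomial.C (Q.leadingCoeff ^ cm) * Polynomial.X ^ c
        = Polynomial.C (Q.leadingCoeff ^ (cm - c)) *
          (Polynomial.C (Q.leadingCoeff ^ c) * Polynomial.X ^ c) := by
      rw [← mul_assoc, ← map_mul, ← pow_add, Nat.sub_add_cancel hc]
    rw [e1, hp4 c hc, Finset.mul_sum]
    refine Finset.sum_congr rfl fun l _ => ?_
    have e2 : p c l = ∑ b ∈ Finset.range N, Polynomial.C ((p c l).coeff b) * Polynomial.X ^ b := by
      ext i
      simp only [Polynomial.finsetSum_coeff, Polynomial.coeff_C_mul_X_pow]
      rw [Finset.sum_ite_eq]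
      split_ifs with hi
      · rfl
      · rw [hp2 c hc l i (by simp at hi; omega)]
    conv_lhs => rw [e2, Finset.sum_mul, Finset.mul_sum]
    refine Finset.sum_congr rfl fun b _ => ?_
    rw [map_mul]; ring
  · push_cast
    refine (house_mul_le _ _).trans ?_
    have b1 : house ((Q.leadingCoeff : K) ^ (cm - c)) ≤ (3 * L) ^ (cm - c) :=
      (house_pow_le _ _).trans (pow_le_pow_left₀ (house_nonneg _)
        ((hb _).trans (by linarith)) _)
    calc house ((Q.leadingCoeff : K) ^ (cm - c)) * house ((p c l).coeff b : K)
        ≤ (3 * L) ^ (cm - c) * (3 * L) ^ c :=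
          mul_le_mul b1 (hp3 c hc l b) (house_nonneg _) (by positivity)
      _ = (3 * L) ^ cm := by rw [← pow_add, Nat.sub_add_cancel hc]

end Pool.Agent.J4H56.GE
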