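import Pool.Agent.J4H27.GE.Defs

/-!
# Project GE, part SCL: multiplication by a common denominator
-/

set_option autoImplicit false

open NumberField Height Pool.Agent.J4H27.GE

namespace Pool.Agent.J4H56.GE

section
variable {K : Type} [Field K] [NumberField K]

theorem place_le (w : InfinitePlace K) (x : K) : w x ≤ Real.exp (logHeight₁ x) := by
  have h1 : Real.posLog (w x) ≤ logHeight₁ x := by
    rw [NumberField.logHeight₁_eq]
    have h2 : (w.mult : ℝ) * Real.posLog (w x) ≤
        ∑ v : InfinitePlace K, (v.mult : ℝ) * Real.posLog (v x) :=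
      Finset.single_le_sum (f := fun v : InfinitePlace K => (v.mult : ℝ) * Real.posLog (v x))
        (fun v _ => mul_nonneg (Nat.cast_nonneg _) Real.posLog_nonneg) (Finset.mem_univ w)
    have h3 : 0 ≤ ∑ᶠ v : FinitePlace K, Real.posLog (v x) :=
      finsum_nonneg fun v => Real.posLog_nonneg
    have h4 : (1 : ℝ) ≤ w.mult := by exact_mod_cast InfinitePlace.one_le_mult
    have h5 : 0 ≤ Real.posLog (w x) := Real.posLog_nonneg
    nlinarith
  rcases eq_or_lt_of_le (apply_nonneg w x) with h0 | h0
  · rw [← h0]; positivity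
  · calc w x = Real.exp (Real.log (w x)) := (Real.exp_log h0).symm
      _ ≤ _ := Real.exp_le_exp.2 ((le_max_right _ _).trans h1)

theorem house_le (x : K) : house x ≤ Real.exp (logHeight₁ x) := by
  rw [house_eq_sup']
  have : ∀ φ : K →+* ℂ, ‖φ x‖ ≤ Real.exp (logHeight₁ x) := fun φ => by
    have := place_le (InfinitePlace.mk φ) x
    simpa [InfinitePlace.apply] using this
  have h2 : (Finset.univ.sup' Finset.univ_nonempty fun φ : K →+* ℂ ↦ ‖φ x‖₊) ≤
      (⟨Real.exp (logHeight₁ x), (Real.exp_pos _).le⟩ : NNReal) := by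
    refine Finset.sup'_le _ _ fun φ _ => ?_
    exact_mod_cast this φ
  exact_mod_cast h2

end

theorem t_SCL : S_SCL := by
  intro K _ _ n
  refine ⟨n + 1, by positivity, fun y hy => ?_⟩
  obtain ⟨j, hj⟩ : ∃ j, y j ≠ 0 := by
    by_contra hno
    push Not at hno
    exact hy (funext hno)
  have hh : ∀ i, logHeight₁ (y i / y j) ≤ logHeight y := by
    intro i
    rw [logHeight₁_div_eq_logHeight]
    have : ![y i, y j] = y ∘ ![i, j] := by
      ext s; fin_cases s <;> rfl
    rw [this]
    exact logHeight_comp_le _ _
  have hm : ∀ i, mulHeight₁ (y i / y j) ≤ Real.exp (logHeight y) := by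
    intro i
    have := hh i
    rw [logHeight₁_eq_log_mulHeight₁] at this
    rw [← Real.exp_log (mulHeight₁_pos (y i / y j))]
    exact Real.exp_le_exp.2 this
  choose N hN0 hN hI using fun i => exists_nat_le_mulHeight₁ (y i / y j)
  set D := ∏ i, N i with hD
  have hD0 : D ≠ 0 := Finset.prod_ne_zero_iff.2 fun i _ => hN0 i
  have hint : ∀ i, IsIntegral ℤ ((D : K) * (y i / y j)) := by
    intro i
    have : (D : K) * (y i / y j)
        = ((∏ s ∈ Finset.univ.erase i, N s : ℕ) : K) * (N i * (y i / y j)) := by
      rw [hD, ← Finset.mul_prod_erase Finset.univ N (Finset.mem_univ i)]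
      push_cast; ring
    rw [this]
    have hn : IsIntegral ℤ ((∏ s ∈ Finset.univ.erase i, N s : ℕ) : K) := by
      have h := isIntegral_algebraMap (R := ℤ) (A := K)
        (x := ((∏ s ∈ Finset.univ.erase i, N s : ℕ) : ℤ))
      rw [eq_intCast, Int.cast_natCast] at h
      exact h
    exact hn.mul (hI i)
  refine ⟨D / y j, fun i => ⟨D * (y i / y j), hint i⟩, ?_, fun i => ?_, fun i => ?_⟩
  · exact div_ne_zero (by exact_mod_cast hD0) hj
  · show (D : K) * (y i / y j) = D / y j * y i
    ring
  · show house ((D : K) * (y i / y j)) ≤ _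
    refine (house_mul_le _ _).trans ?_
    have h0 := logHeight_nonneg y
    have a1 : house (D : K) ≤ Real.exp (n * logHeight y) := by
      have : house (D : K) = D := by
        have := house_intCast (K := K) D
        simpa using this
      rw [this, hD]
      push_cast
      calc ∏ i, (N i : ℝ) ≤ ∏ _i : Fin n, Real.exp (logHeight y) :=
            Finset.prod_le_prod (fun i _ => Nat.cast_nonneg _) fun i _ => (hN i).trans (hm i)
        _ = Real.exp (n * logHeight y) := by
            rw [Finset.prod_const, Finset.card_univ, Fintype.card_fin, Real.exp_nat_mul]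
    have a2 : house (y i / y j) ≤ Real.exp (logHeight y) :=
      (house_le _).trans (Real.exp_le_exp.2 (hh i))
    calc house (D : K) * house (y i / y j)
        ≤ Real.exp (n * logHeight y) * Real.exp (logHeight y) :=
          mul_le_mul a1 a2 (house_nonneg _) (Real.exp_pos _).le
      _ = Real.exp ((n + 1) * logHeight y) := by rw [← Real.exp_add]; ring_nf
      _ ≤ _ := Real.exp_le_exp.2 (by nlinarith [Nat.cast_nonneg (α := ℝ) n])

end Pool.Agent.J4H56.GE
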